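import Mathlib

/-!
# Relative termination of a four-letter string rewriting system

`R = {ad → db, a → bbb, d → ε, a → ε, bc → cdd, ac → bbcd}` is terminating relative to
`S = {bdb → ad, ad → bdb}`.

A word is cut into blocks by its letters `c`. Each block is interpreted by the affine maps
`a : x ↦ x + 4`, `b : x ↦ x + 1`, `d : x ↦ 3 x` (applied to `1`), and the values of the blocks are
compared lexicographically, the leftmost block being the most significant one.
-/

namespace Pool.Agent.Results.MP_081fbf_lc.RelativeTermination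

/-- The alphabet. -/
inductive Letter
  | a | b | c | d

open Letter

/-- A string rewriting system: a list of rules `(l, r)`. -/
abbrev Srs := List (List Letter × List Letter)

/-- One rewrite step `u l v → u r v`. -/
def Step (T : Srs) (x y : List Letter) : Prop :=
  ∃ u v l r, (l, r) ∈ T ∧ x = u ++ l ++ v ∧ y = u ++ r ++ v

/-- The strict rules. -/
def R : Srs :=
  [([a, d], [d, b]), ([a], [b, b, b]), ([d], []), ([a], []), ([b, c], [c, d, d]),
    ([a, c], [b, b, c, d])]

/-- The non-strict rules. -/
def S : Srs := [([b, d, b], [a, d]), ([a, d], [b, d, b])]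

open Ordinal in
/-- The interpretation: value of the first block, ordinal of the remaining blocks, and the number
of letters `c`. -/
noncomputable def F : List Letter → ℕ × Ordinal.{0} × ℕ
  | [] => (1, 0, 0)
  | a :: l => ((F l).1 + 4, (F l).2.1, (F l).2.2)
  | b :: l => ((F l).1 + 1, (F l).2.1, (F l).2.2)
  | d :: l => (3 * (F l).1, (F l).2.1, (F l).2.2)
  | c :: l => (1, ω ^ (F l).2.2 * ((F l).1 : Ordinal.{0}) + (F l).2.1, (F l).2.2 + 1)

theorem F_pos (l : List Letter) : 1 ≤ (F l).1 := by
  induction l with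
  | nil => simp [F]
  | cons x l ih => cases x <;> simp only [F] <;> omega

open Ordinal in
theorem F_lt (l : List Letter) : (F l).2.1 < ω ^ (F l).2.2 := by
  induction l with
  | nil => simp [F]
  | cons x l ih =>
    cases x <;> simp only [F]
    · exact ih
    · exact ih
    · calc ω ^ (F l).2.2 * ((F l).1 : Ordinal.{0}) + (F l).2.1
          < ω ^ (F l).2.2 * ((F l).1 : Ordinal.{0}) + ω ^ (F l).2.2 := by
            exact (add_lt_add_iff_left _).2 ih
        _ = ω ^ (F l).2.2 * (((F l).1 + 1 : ℕ) : Ordinal.{0}) := by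
            rw [Nat.cast_add, Nat.cast_one, mul_add, mul_one]
        _ ≤ ω ^ (F l).2.2 * ω := by
            exact mul_le_mul_right (natCast_lt_omega0 _).le _
        _ = ω ^ ((F l).2.2 + 1) := by rw [pow_succ]
    · exact ih

/-- Comparison of interpretations: same number of `c`, lexicographically smaller values. -/
def Lt (p q : ℕ × Ordinal.{0} × ℕ) : Prop :=
  p.2.2 = q.2.2 ∧ (p.1 < q.1 ∨ (p.1 = q.1 ∧ p.2.1 < q.2.1))

open Ordinal in
theorem Lt_cons (x : Letter) (l l' : List Letter) (h : Lt (F l) (F l')) :
    Lt (F (x :: l)) (F (x :: l')) := by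
  obtain ⟨h1, h2⟩ := h
  cases x <;> simp only [F, Lt]
  · exact ⟨h1, by rcases h2 with h2 | h2 <;> [left; right] <;> [omega; exact ⟨by omega, h2.2⟩]⟩
  · exact ⟨h1, by rcases h2 with h2 | h2 <;> [left; right] <;> [omega; exact ⟨by omega, h2.2⟩]⟩
  · refine ⟨by omega, Or.inr ⟨trivial, ?_⟩⟩
    rcases h2 with h2 | h2
    · calc ω ^ (F l).2.2 * ((F l).1 : Ordinal.{0}) + (F l).2.1
          < ω ^ (F l).2.2 * ((F l).1 : Ordinal.{0}) + ω ^ (F l).2.2 := by
            exact (add_lt_add_iff_left _).2 (F_lt l)
        _ = ω ^ (F l).2.2 * (((F l).1 + 1 : ℕ) : Ordinal.{0}) := by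
            rw [Nat.cast_add, Nat.cast_one, mul_add, mul_one]
        _ ≤ ω ^ (F l).2.2 * ((F l').1 : Ordinal.{0}) := by
            exact mul_le_mul_right (by exact_mod_cast h2) _
        _ ≤ ω ^ (F l).2.2 * ((F l').1 : Ordinal.{0}) + (F l').2.1 := le_add_of_nonneg_right (zero_le)
        _ = _ := by rw [h1]
    · rw [h1, h2.1]
      exact (add_lt_add_iff_left _).2 h2.2
  · exact ⟨h1, by rcases h2 with h2 | h2 <;> [left; right] <;> [omega; exact ⟨by omega, h2.2⟩]⟩

theorem Lt_append (u l l' : List Letter) (h : Lt (F l) (F l')) :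
    Lt (F (u ++ l)) (F (u ++ l')) := by
  induction u with
  | nil => simpa using h
  | cons x u ih => exact Lt_cons x _ _ ih

theorem eq_append (u l l' : List Letter) (h : F l = F l') : F (u ++ l) = F (u ++ l') := by
  induction u with
  | nil => simpa using h
  | cons x u ih =>
    simp only [List.cons_append]
    cases x <;> simp only [F, ih]

theorem R_lt {x y : List Letter} (h : Step R x y) : Lt (F y) (F x) := by
  obtain ⟨u, v, l, r, hm, rfl, rfl⟩ := h
  rw [List.append_assoc, List.append_assoc]
  apply Lt_append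
  have hv := F_pos v
  simp only [R, List.mem_cons, Prod.mk.injEq, List.not_mem_nil, or_false] at hm
  rcases hm with ⟨rfl, rfl⟩ | ⟨rfl, rfl⟩ | ⟨rfl, rfl⟩ | ⟨rfl, rfl⟩ | ⟨rfl, rfl⟩ | ⟨rfl, rfl⟩ <;>
    simp only [List.cons_append, List.nil_append, F, Lt, true_and] <;>
    left <;> omega

theorem S_eq {x y : List Letter} (h : Step S x y) : F y = F x := by
  obtain ⟨u, v, l, r, hm, rfl, rfl⟩ := h
  rw [List.append_assoc, List.append_assoc]
  apply eq_append
  simp only [S, List.mem_cons, Prod.mk.injEq, List.not_mem_nil, or_false] at hm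
  rcases hm with ⟨rfl, rfl⟩ | ⟨rfl, rfl⟩ <;>
    simp only [List.cons_append, List.nil_append, F, Prod.mk.injEq, and_true] <;> ring

/-- the measure with values in a well-order -/
noncomputable def M (l : List Letter) : ℕ ×ₗ Ordinal.{0} := toLex ((F l).1, (F l).2.1)

theorem M_lt {p q : List Letter} (h : Lt (F p) (F q)) : M p < M q := by
  rw [M, M, Prod.Lex.toLex_lt_toLex]
  exact h.2

/-- **Main result**: in every infinite rewrite sequence of `R ∪ S` only finitely many steps are
`R`-steps, that is, `R` is terminating relative to `S`. -/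
theorem result (x : ℕ → List Letter)
    (hx : ∀ n, Step R (x n) (x (n + 1)) ∨ Step S (x n) (x (n + 1))) :
    {n | Step R (x n) (x (n + 1))}.Finite := by
  have hle : Antitone fun n => M (x n) := by
    refine antitone_nat_of_succ_le fun n => ?_
    rcases hx n with h | h
    · exact (M_lt (R_lt h)).le
    · show M (x (n + 1)) ≤ M (x n)
      rw [M, M, S_eq h]
  obtain ⟨N, hN⟩ := WellFoundedGT.monotone_chain_condition
    (α := (ℕ ×ₗ Ordinal.{0})ᵒᵈ) ⟨fun n => OrderDual.toDual (M (x n)), fun i j hij => hle hij⟩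
  refine (Set.finite_lt_nat N).subset fun n hn => ?_
  by_contra hlt
  simp only [Set.mem_ofPred_eq, not_lt] at hlt
  have h1 := hN n hlt
  have h2 := hN (n + 1) (by omega)
  have h3 : M (x n) = M (x (n + 1)) := by
    have := h1.symm.trans h2
    exact this
  exact absurd h3 (M_lt (R_lt hn)).ne'

end Pool.Agent.Results.MP_081fbf_lc.RelativeTermination
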